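import Pool.Agent.N846.DU.Final
import Pool.Agent.N846.DU.Gam
import Pool.Agent.N846.DU.Left
import Pool.Agent.U828.DU.Diag
import Pool.Agent.U828.DU.Eul

/-!
# The Ramanujan conjecture for `GL(n)` over number fields: a density theorem for the violations, in every family

Let `K` be a number field, `n ≥ 1`, `ε > 0` and `dens(δ) = (1 - 2 δ) / max(1, 4 δ)`. For a unitary cuspidal automorphic
representation `π` of `GL_n` over `K`, a finite place `v` at which `π` is unramified with Satake parameters `α_{i,v}`, let
`θ_{π,v} = max_i |log_{Nv} |α_{i,v}||`. The conjecture says `θ_{π,v} = 0`. We show that strong violations are rare in **every**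
family of representations, of arbitrary conductors and with arbitrary ramification and infinity types:

1. (finite places) if `T` is a set of members of the family with `θ_{π,v} ≥ δ` for all `π ∈ T`, at a place `v` outside the bad
   places of the members of `T`, and the analytic conductors `q(π × π'~) ∏_j (1 + |κ_j(π × π'~)|)` of the Rankin-Selberg
   `L`-functions of the pairs from `T` are at most `Q`, then `T` is finite and

     `#T ≤ A (Nv^{2 n²} Q)^{dens(δ) + ε}`;

2. (archimedean places) if to each `π ∈ T` belongs a number `s_π`, `δ ≤ Re s_π ≤ 1/2`, such that for any two different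
   `π, π' ∈ T` the Gamma factor of `L(s, π × π'~)` has a factor `Γ_ℝ(s - (s_π + conj s_π'))` (so it is if `-s_π` is an
   exceptional parameter of `π_w`, where `w` is an archimedean place at which the `π_w`, `π ∈ T`, are principal series: a
   violation of the conjecture at `w` of the size `Re s_π`), and `q(π × π'~) ∏_j (1 + |κ_j + s_π + conj s_π'|) ≤ Q` for all the
   pairs, then `#T ≤ A Q^{dens(δ) + ε}`.

The constant `A` depends only on `K`, `n`, `ε` and the number `N` of Gamma factors `Γ_ℝ` (`N = n² [K : ℚ]`), neither on the
family nor on `v`. For `δ > 1/4` the exponent `dens(δ) = (1 - 2 δ) / (4 δ)` is smaller than `1/2`, and it tends to `0` as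
`δ → 1/2`.

The structure `GLFamily` lists what is used: for each `π` unitarity at the unramified places, the bounds of Jacquet and
Shalika, the absolute convergence of `L(s, π × π~)` in `Re s > 1` and, for all pairs, continuation, growth and functional
equation of `L(s, π × π'~)` with a simple pole at `s = 1` if `π = π'` and no poles if not (Jacquet, Piatetski-Shapiro,
Shalika; Moeglin, Waldspurger; the central characters are trivial on the positive reals). At the finitely many bad
places the local factors `L(s, π_v × π'~_v)` are given by an arbitrary Gram matrix of vectors with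
`‖u(v, k, ·)‖² ≤ n² Nv^{k+1}`. No trace formula is used, and nothing on the size of the family.

The first density theorem of this kind was `MP_fa98d2_nt.DensityTheorem` (spherical cusp forms on `PGL_n` over `ℚ`, so
conductor `1`). Here `K` is an arbitrary number field and there is no condition on the ramification: also the level
aspect is included.

The proof (helper846, `Pool/Agent/N846/DU`, the part `EUL` has been added in `Pool/Agent/U828/DU/Eul.lean`): for two
different representations `L(s, π × π'~)` (for a finite place `v`: without its Euler factor at `v`) vanishes at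
`s = s_π + conj s_π'`, a trivial zero. The smoothed sums of the Dirichlet coefficients of `L(s, π × π'~)` at this point are
positive semidefinite in `(π, π')`, so their sum over all pairs is at least `|T|²/2` from the term `1`. On the other hand
the terms `π ≠ π'` are `≪ Q^{1/2 + σ + ε} Y^{-σ - 2δ}` by shifting the line of integration past the zero, and the terms
`π = π'` are `≪ Y^{1 - 2 δ} Q^ε`.
-/

set_option autoImplicit false

namespace Pool.Agent.Results.MP_8410ab_nt.DensityTheorem

open NumberField IsDedekindDomain Pool.Agent.N846.DU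
open Pool.Agent.N846.DT (dens)

/-- **A density theorem for the violations of the Ramanujan conjecture on `GL(n)` over a number field.** -/
theorem result (K : Type) [Field K] [NumberField K] (n N : ℕ) {ε : ℝ} (hε : 0 < ε) : ∃ A : ℝ, 0 < A ∧
    ∀ (ι : Type) (S : ι → Finset (HeightOneSpectrum (𝓞 K))) (α : ι → HeightOneSpectrum (𝓞 K) → Fin n → ℂ)
      (u : ι → VX K → ℂ) (q : ι → ι → ℝ) (κ : ι → ι → Fin N → ℂ), GLFamily n N S α u q κ →
      (∀ (v : HeightOneSpectrum (𝓞 K)) (δ Q : ℝ) (T : Set ι), 0 ≤ δ → 1 ≤ Q →
        (∀ f ∈ T, v ∉ S f ∧ ∃ k, δ ≤ |Real.logb (Nv v) ‖α f v k‖|) →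
        (∀ f ∈ T, ∀ g ∈ T, q f g * ∏ j, (1 + ‖κ f g j‖) ≤ Q) →
        T.Finite ∧ (T.ncard : ℝ) ≤ A * (Nv v ^ (2 * n ^ 2) * Q) ^ (dens δ + ε)) ∧
      (∀ (δ Q : ℝ) (T : Set ι) (s : ι → ℂ), 0 ≤ δ → 1 ≤ Q →
        (∀ f ∈ T, δ ≤ (s f).re ∧ (s f).re ≤ 1 / 2) →
        (∀ f ∈ T, ∀ g ∈ T, f ≠ g → ∃ j, κ f g j = -(s f + (starRingEnd ℂ) (s g))) →
        (∀ f ∈ T, ∀ g ∈ T, q f g * ∏ j, (1 + ‖κ f g j + (s f + (starRingEnd ℂ) (s g))‖) ≤ Q) →
        T.Finite ∧ (T.ncard : ℝ) ≤ A * Q ^ (dens δ + ε)) :=
  density (left gam) (Pool.Agent.U828.DU.D.diag (left gam)) Pool.Agent.U828.DU.eul K n N hε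

end Pool.Agent.Results.MP_8410ab_nt.DensityTheorem
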