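import Pool.Agent.U985.UK.Fin

/-!
# The Ramanujan conjecture for `GL(n)` over number fields: early places with small or tempered components, in families

Let `K` be a number field and let `π_1, …, π_r` be unitary cuspidal automorphic representations of `GL_n(A_K)`, with
**arbitrary ramification** and arbitrary infinity types. Let `S_i` be the set of the finite places `v` at which
`π_{i,v}` is not a twist of an unramified representation, `λ_i(v)` the sum of the Satake parameters of (the unramified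
unitary twist of) `π_{i,v}` for `v ∉ S_i`, and

  `C_i = q_i ∏_j (1 + |κ_{ij}|)`

the analytic conductor of the Rankin-Selberg `L`-function `L(s, π_i × π~_i)`: `q_i` is its arithmetic conductor, and its
Gamma factors are `Γ_ℝ(s + κ_{ij})`, `j = 1, …, N`. Let `Cm = (C_1 ⋯ C_r)^{1/r}` be the geometric mean. We show that
temperedness, or the Ramanujan bound `|λ(v)| < n`, holds very early, with **exponents much smaller than one**, and with
constants **independent of the number `r`** of the representations: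

1. (main theorem; the `π_i` may even belong to different groups `GL_{n_i}`, `n_i ≤ n₀`) let `m, B, x > 0` and let
   `c > x / (4 (m ∫_0^x e^{-t²/2} dt - √(π/2)))`, the denominator being positive. There are `A, δ > 0`, depending only on
   `K`, `n₀`, `N₀`, `m`, `B`, `x`, `c`, such that for every `r`, every such family and every `P ≥ A Cm^c` there are at
   least `P^δ` places `v` with `Nv ≤ P` and `∑_{i : v ∉ S_i} |λ_i(v)|² + B #{i : v ∈ S_i} < m r`;
2. for every `θ < 1 - 1/n²` there are `c`, `A`, `δ` such that for every `r`, every family and every `P ≥ A Cm^c` there are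
   at least `P^δ` places `v` with `Nv ≤ P` at which more than `θ r` of the `π_i` satisfy `v ∉ S_i`, `|λ_i(v)| < n` (and are
   therefore tempered at `v`, if `n = 2`: any proportion less than `3/4`);
3. (`n = 2`) with `c = 0.41`: more than half of the `π_i` are tempered at `v`, for at least `P^δ` places `Nv ≤ P`, as soon
   as `P ≥ A Cm^{0.41}`;
4. (`n = 2`) any two representations are simultaneously tempered at at least `P^δ` places `v`, `Nv ≤ P`, as soon as
   `P ≥ A (C_1 C_2)^{0.205}`, any three of them as soon as `P ≥ A (C_1 C_2 C_3)^{0.49}`, and a single one as soon as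
   `P ≥ A C^{0.115}`;
5. (all `n ≥ 2`) one has `|λ(v)| < n` at at least `P^δ` places `v ∉ S`, `Nv ≤ P`, as soon as `P ≥ A C^{1/(4n(n-1))}`;
6. (`n = 3`) all Satake parameters satisfy `1/2 < |α_{j,v}| < 2` at at least `P^δ` places, as soon as `P ≥ A C^{1/3}`.

Known before: for `n = 2, 3` a tempered place with `Nv ≤ A C^{1+ε}`, and up to four representations of `GL_2` with the
exponent `1 + ε` (results `LeastTemperedPlace`, `SimultaneouslyTempered` of this problem), by Landau's theorem; for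
`K = ℚ`, `r = 1` and `π` unramified at all primes the analogue of 4. and 5. is `MP_fa98d2_nt.RamanujanSmallPrimes`. Here
`K`, the ramification and the number of the representations are arbitrary.

What is used of a representation is listed in the structures `Rep` and `RS` of `Pool.Agent.N846.DU.Stm`: unitarity at
the places outside `S`, the bounds of Jacquet and Shalika, absolute convergence of `L(s, π × π~)` in `Re s > 1` (with
arbitrary Gram matrices as local factors at `S`), its continuation with a simple pole at `s = 1`, polynomial growth in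
vertical strips and the functional equation (Jacquet, Piatetski-Shapiro, Shalika; Moeglin, Waldspurger). The condition
`ramified : ∏_{v ∈ S} Nv ≤ q` says that the places of `S` divide the conductor of `L(s, π × π~)`: the conductor exponent of
`π_v × π~_v` is zero only if `π_v` is a twist of an unramified representation. No bound towards the conjecture is used
beyond that of Jacquet and Shalika, and neither symmetric power lifts nor the adjoint `L`-function.

The proof: a three lines (Poisson-Jensen) inequality for `(s - 1) L(s, π × π~)` between `Re s = -σ₁` and `Re s = 1 + δ`,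
applied to finite differences of `log L` and averaged over the heights with a Gaussian weight, gives

  `∑_v |λ(v)|² (log Nv / Nv) e^{-(log Nv)²/(2 s²)} ≤ √(π/2) s + (1/4 + ε) log C + A`  for all `s ≥ 1`

(`Pool/Agent/U985/UT/{Three,Gauss}`, `Pool/Agent/U985/UK/FormK`), which is compared with Mertens' theorem for the prime
ideals with the same weight (`Pool/Agent/U985/UK/MertK`, from `Pool/Agent/N753/LS/Mert`), `s = log P / x`. The size of
`(s - 1) L(s, π × π~)` on `Re s = -σ₁` and of `L(1 + σ₁, π × π~)` is from the library (`N846/DU/Left`, `U828/DU/Diag`).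
-/

set_option autoImplicit false

namespace Pool.Agent.Results.MP_8410ab_nt.EarlyTemperedPlaces

open NumberField IsDedekindDomain
open Pool.Agent.N846.DU

/-- the analytic conductor `q ∏_j (1 + |κ_j|)` of `L(s, π × π~)` -/
noncomputable def cond {N : ℕ} (q : ℝ) (κ : Fin N → ℂ) : ℝ := q * ∏ j, (1 + ‖κ j‖)

/-- A unitary cuspidal automorphic representation `π` of `GL_n` over `K`: `S` is the set of the finite places at which `π` is
not a twist of an unramified representation, `α v` are the Satake parameters at `v ∉ S`, `q` and the `κ j` are the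
conductor and the parameters of the Gamma factors of `L(s, π × π~)`. -/
structure Cuspidal {K : Type} [Field K] [NumberField K] (n N : ℕ) (S : Finset (HeightOneSpectrum (𝓞 K)))
    (α : HeightOneSpectrum (𝓞 K) → Fin n → ℂ) (q : ℝ) (κ : Fin N → ℂ) : Prop where
  /-- `L(s, π × π~)` with its analytic properties, `u` its normalised coefficients -/
  rankin : ∃ u : VX K → ℂ, Rep n S α u ∧ RS u u q κ 1
  /-- the places of `S` divide the conductor -/
  ramified : ∏ v ∈ S, Nv v ≤ q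

open Classical in
/-- **Early places with small or tempered components.** -/
theorem result (K : Type) [Field K] [NumberField K] :
    -- 1. the main theorem
    (∀ (n₀ N₀ : ℕ) (m B x c : ℝ), 0 < m → 0 ≤ B → 0 < x →
      0 < m * (∫ t in (0 : ℝ)..x, Real.exp (-t ^ 2 / 2)) - √(Real.pi / 2) →
      x / (4 * (m * (∫ t in (0 : ℝ)..x, Real.exp (-t ^ 2 / 2)) - √(Real.pi / 2))) < c →
      ∃ A δ : ℝ, 0 < A ∧ 0 < δ ∧ ∀ (r : ℕ), 1 ≤ r → ∀ (n N : Fin r → ℕ), (∀ i, n i ≤ n₀) → (∀ i, N i ≤ N₀) →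
      ∀ (S : Fin r → Finset (HeightOneSpectrum (𝓞 K))) (α : ∀ i, HeightOneSpectrum (𝓞 K) → Fin (n i) → ℂ)
        (q : Fin r → ℝ) (κ : ∀ i, Fin (N i) → ℂ), (∀ i, Cuspidal (n i) (N i) (S i) (α i) (q i) (κ i)) →
      ∀ P : ℝ, A * (∏ i, cond (q i) (κ i)) ^ (c / r) ≤ P →
        ∃ T : Finset (HeightOneSpectrum (𝓞 K)), P ^ δ ≤ (T.card : ℝ) ∧
          ∀ v ∈ T, Nv v ≤ P ∧ ∑ i, (if v ∈ S i then B else ‖∑ j, α i v j‖ ^ 2) < m * r) ∧
    -- 2. any proportion less than `1 - 1/n²`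
    (∀ (n N : ℕ) (θ : ℝ), 2 ≤ n → θ < 1 - 1 / (n : ℝ) ^ 2 →
      ∃ c A δ : ℝ, 0 < c ∧ 0 < A ∧ 0 < δ ∧ ∀ (r : ℕ), 1 ≤ r →
      ∀ (S : Fin r → Finset (HeightOneSpectrum (𝓞 K))) (α : Fin r → HeightOneSpectrum (𝓞 K) → Fin n → ℂ)
        (q : Fin r → ℝ) (κ : Fin r → Fin N → ℂ), (∀ i, Cuspidal n N (S i) (α i) (q i) (κ i)) →
      ∀ P : ℝ, A * (∏ i, cond (q i) (κ i)) ^ (c / r) ≤ P →
        ∃ T : Finset (HeightOneSpectrum (𝓞 K)), P ^ δ ≤ (T.card : ℝ) ∧
          ∀ v ∈ T, Nv v ≤ P ∧ ∃ G : Finset (Fin r), θ * r < (G.card : ℝ) ∧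
            ∀ i ∈ G, v ∉ S i ∧ ‖∑ j, α i v j‖ < n ∧ (n = 2 → ∀ j, ‖α i v j‖ = 1)) ∧
    -- 3. `n = 2`: more than half of the representations, exponent `0.41`
    (∀ N : ℕ, ∃ A δ : ℝ, 0 < A ∧ 0 < δ ∧ ∀ (r : ℕ), 1 ≤ r →
      ∀ (S : Fin r → Finset (HeightOneSpectrum (𝓞 K))) (α : Fin r → HeightOneSpectrum (𝓞 K) → Fin 2 → ℂ)
        (q : Fin r → ℝ) (κ : Fin r → Fin N → ℂ), (∀ i, Cuspidal 2 N (S i) (α i) (q i) (κ i)) →
      ∀ P : ℝ, A * (∏ i, cond (q i) (κ i)) ^ (0.41 / (r : ℝ)) ≤ P →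
        ∃ T : Finset (HeightOneSpectrum (𝓞 K)), P ^ δ ≤ (T.card : ℝ) ∧
          ∀ v ∈ T, Nv v ≤ P ∧ ∃ G : Finset (Fin r), r < 2 * G.card ∧
            ∀ i ∈ G, v ∉ S i ∧ ∀ j, ‖α i v j‖ = 1) ∧
    -- 4. `n = 2`: one, two, three representations
    (∀ (N r : ℕ) (e : ℝ), (r = 1 ∧ e = 0.115) ∨ (r = 2 ∧ e = 0.205) ∨ (r = 3 ∧ e = 0.49) →
      ∃ A δ : ℝ, 0 < A ∧ 0 < δ ∧
      ∀ (S : Fin r → Finset (HeightOneSpectrum (𝓞 K))) (α : Fin r → HeightOneSpectrum (𝓞 K) → Fin 2 → ℂ)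
        (q : Fin r → ℝ) (κ : Fin r → Fin N → ℂ), (∀ i, Cuspidal 2 N (S i) (α i) (q i) (κ i)) →
      ∀ P : ℝ, A * (∏ i, cond (q i) (κ i)) ^ e ≤ P →
        ∃ T : Finset (HeightOneSpectrum (𝓞 K)), P ^ δ ≤ (T.card : ℝ) ∧
          ∀ v ∈ T, Nv v ≤ P ∧ ∀ i, v ∉ S i ∧ ∀ j, ‖α i v j‖ = 1) ∧
    -- 5. all `n`: the Ramanujan bound for the Hecke eigenvalue
    (∀ n N : ℕ, 2 ≤ n → ∃ A δ : ℝ, 0 < A ∧ 0 < δ ∧
      ∀ (S : Finset (HeightOneSpectrum (𝓞 K))) (α : HeightOneSpectrum (𝓞 K) → Fin n → ℂ)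
        (q : ℝ) (κ : Fin N → ℂ), Cuspidal n N S α q κ →
      ∀ P : ℝ, A * cond q κ ^ (1 / (4 * (n : ℝ) * ((n : ℝ) - 1))) ≤ P →
        ∃ T : Finset (HeightOneSpectrum (𝓞 K)), P ^ δ ≤ (T.card : ℝ) ∧
          ∀ v ∈ T, Nv v ≤ P ∧ v ∉ S ∧ ‖∑ j, α v j‖ < n) ∧
    -- 6. `n = 3`
    (∀ N : ℕ, ∃ A δ : ℝ, 0 < A ∧ 0 < δ ∧
      ∀ (S : Finset (HeightOneSpectrum (𝓞 K))) (α : HeightOneSpectrum (𝓞 K) → Fin 3 → ℂ)
        (q : ℝ) (κ : Fin N → ℂ), Cuspidal 3 N S α q κ →
      ∀ P : ℝ, A * cond q κ ^ (1 / 3 : ℝ) ≤ P →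
        ∃ T : Finset (HeightOneSpectrum (𝓞 K)), P ^ δ ≤ (T.card : ℝ) ∧
          ∀ v ∈ T, Nv v ≤ P ∧ v ∉ S ∧ ∀ j, 1 / 2 < ‖α v j‖ ∧ ‖α v j‖ < 2) := by
  refine ⟨?_, ?_, ?_, ?_, ?_, ?_⟩
  · intro n₀ N₀ m B x c hm hB hx hD hc
    obtain ⟨A, δ, hA, hδ, h⟩ := U985.UK.manyU K n₀ N₀ hm hB hx hD hc
    refine ⟨A, δ, hA, hδ, fun r hr n N hn hN S α q κ hC P hP => ?_⟩
    choose u hu using fun i => (hC i).rankin
    exact h r hr n N hn hN S α u q κ (fun i => (hu i).1) (fun i => (hu i).2) (fun i => (hC i).ramified) P hP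
  · intro n N θ hn hθ
    have hn0 : (0 : ℝ) < n := by exact_mod_cast (by omega : 0 < n)
    have hn2 : (0 : ℝ) < (n : ℝ) ^ 2 := by positivity
    have hm : 1 < (n : ℝ) ^ 2 * (1 - θ) := by
      have h1 : 1 / (n : ℝ) ^ 2 < 1 - θ := by linarith
      rw [div_lt_iff₀ hn2] at h1
      linarith
    obtain ⟨c, hc0, hc⟩ := U985.UK.adm_gt hm
    obtain ⟨A, δ, hA, hδ, h⟩ := U985.UK.famMost K n N (by omega) (by linarith) hc
    refine ⟨c, A, δ, hc0, hA, hδ, fun r hr S α q κ hC P hP => ?_⟩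
    choose u hu using fun i => (hC i).rankin
    obtain ⟨T, hT1, hT2⟩ := h r hr S α u q κ (fun i => (hu i).1) (fun i => (hu i).2) (fun i => (hC i).ramified) P hP
    refine ⟨T, hT1, fun v hv => ⟨(hT2 v hv).1, ?_⟩⟩
    obtain ⟨G, hG1, hG2⟩ := (hT2 v hv).2
    refine ⟨G, lt_of_le_of_lt (le_of_eq ?_) hG1, fun i hi => ⟨(hG2 i hi).1, (hG2 i hi).2, ?_⟩⟩
    · congr 1
      field_simp
      ring
    · intro h2
      subst h2
      exact U985.UK.two_temp ((hu i).1.ne_zero v (hG2 i hi).1) ((hu i).1.unitary v (hG2 i hi).1)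
        (by simpa using (hG2 i hi).2)
  · intro N
    obtain ⟨A, δ, hA, hδ, h⟩ := U985.UK.famMost K 2 N (by norm_num) (by norm_num) U985.UK.adm2
    refine ⟨A, δ, hA, hδ, fun r hr S α q κ hC P hP => ?_⟩
    choose u hu using fun i => (hC i).rankin
    obtain ⟨T, hT1, hT2⟩ := h r hr S α u q κ (fun i => (hu i).1) (fun i => (hu i).2) (fun i => (hC i).ramified) P hP
    refine ⟨T, hT1, fun v hv => ⟨(hT2 v hv).1, ?_⟩⟩
    obtain ⟨G, hG1, hG2⟩ := (hT2 v hv).2
    refine ⟨G, ?_, fun i hi => ⟨(hG2 i hi).1, ?_⟩⟩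
    · have : (r : ℝ) < 2 * G.card := by
        norm_num at hG1
        linarith
      exact_mod_cast this
    · exact U985.UK.two_temp ((hu i).1.ne_zero v (hG2 i hi).1) ((hu i).1.unitary v (hG2 i hi).1)
        (by simpa using (hG2 i hi).2)
  · intro N r e hre
    obtain ⟨m, c, hm, hr, hmr, hec, hAdm⟩ : ∃ m c : ℝ, 0 < m ∧ 1 ≤ r ∧ m * r ≤ ((2 : ℕ) : ℝ) ^ 2 ∧ e = c / r ∧
        U985.UK.Adm m c := by
      rcases hre with ⟨h1, h2⟩ | ⟨h1, h2⟩ | ⟨h1, h2⟩
      · subst h1 h2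
        exact ⟨4, 0.115, by norm_num, le_rfl, by norm_num, by norm_num, U985.UK.adm1⟩
      · subst h1 h2
        exact ⟨2, 0.41, by norm_num, by norm_num, by norm_num, by norm_num, U985.UK.adm2⟩
      · subst h1 h2
        exact ⟨4 / 3, 1.47, by norm_num, by norm_num, by norm_num, by norm_num, U985.UK.adm3⟩
    obtain ⟨A, δ, hA, hδ, h⟩ := U985.UK.famAll K 2 N (by norm_num) hm hAdm r hr hmr
    refine ⟨A, δ, hA, hδ, fun S α q κ hC P hP => ?_⟩
    choose u hu using fun i => (hC i).rankin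
    rw [hec] at hP
    obtain ⟨T, hT1, hT2⟩ := h S α u q κ (fun i => (hu i).1) (fun i => (hu i).2) (fun i => (hC i).ramified) P hP
    refine ⟨T, hT1, fun v hv => ⟨(hT2 v hv).1, fun i => ⟨((hT2 v hv).2 i).1, ?_⟩⟩⟩
    exact U985.UK.two_temp ((hu i).1.ne_zero v ((hT2 v hv).2 i).1) ((hu i).1.unitary v ((hT2 v hv).2 i).1)
      (by simpa using ((hT2 v hv).2 i).2)
  · intro n N hn
    have hn' : (2 : ℝ) ≤ n := by exact_mod_cast hn
    have hn2 : (0 : ℝ) < (n : ℝ) ^ 2 := by positivity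
    obtain ⟨A, δ, hA, hδ, h⟩ := U985.UK.famAll K n N (by omega) hn2
      (U985.UK.adm_n (M := (n : ℝ)) (by linarith)) 1 le_rfl (by simp)
    refine ⟨A, δ, hA, hδ, fun S α q κ hC P hP => ?_⟩
    obtain ⟨u, hu⟩ := hC.rankin
    obtain ⟨T, hT1, hT2⟩ := h (fun _ => S) (fun _ => α) (fun _ => u) (fun _ => q) (fun _ => κ) (fun _ => hu.1)
      (fun _ => hu.2) (fun _ => hC.ramified) P (by simpa [cond] using hP)
    exact ⟨T, hT1, fun v hv => ⟨(hT2 v hv).1, (hT2 v hv).2 0⟩⟩
  · intro N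
    obtain ⟨A, δ, hA, hδ, h⟩ := U985.UK.fam K 3 N (m := 9 / 4) (B := 9 / 4) (by norm_num) (by norm_num)
      U985.UK.adm_gl3
    refine ⟨A, δ, hA, hδ, fun S α q κ hC P hP => ?_⟩
    obtain ⟨u, hu⟩ := hC.rankin
    obtain ⟨T, hT1, hT2⟩ := h 1 le_rfl (fun _ => S) (fun _ => α) (fun _ => u) (fun _ => q) (fun _ => κ)
      (fun _ => hu.1) (fun _ => hu.2) (fun _ => hC.ramified) P (by simpa [cond] using hP)
    refine ⟨T, hT1, fun v hv => ⟨(hT2 v hv).1, ?_⟩⟩
    have h1 := (hT2 v hv).2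
    rw [Fin.sum_univ_one] at h1
    by_cases hvS : v ∈ S
    · rw [if_pos hvS] at h1
      norm_num at h1
    · rw [if_neg hvS] at h1
      refine ⟨hvS, U985.UK.three_nearly (hu.1.ne_zero v hvS) (hu.1.unitary v hvS) ?_⟩
      have h2 : ‖∑ j, α v j‖ ^ 2 < (3 / 2) ^ 2 := by
        norm_num at h1 ⊢
        exact h1
      exact lt_of_pow_lt_pow_left₀ 2 (by norm_num) h2

end Pool.Agent.Results.MP_8410ab_nt.EarlyTemperedPlaces
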