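import Mathlib
import Pool.Agent.U980.FL.Family
import Pool.Agent.H921R2.TatePole.Dedekind

/-!
# The Ramanujan conjecture for `GL(2)` over number fields: few representations violate it at the same places

Let `K` be a number field and `π_1, ..., π_m` unitary cuspidal automorphic representations of `GL_2` over `K` which are
not dihedral, tetrahedral or octahedral (those are tempered at all places), such that the lifts `Ad π_i` to `GL_3` are
pairwise not isomorphic, and also the lifts `A⁴ π_i = Sym⁴ π_i ⊗ ω^{-2}` to `GL_5`. There are no conditions on the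
ramification or on the components at infinity, and the family is arbitrary: no trace formula is used. Let `S` be the
finite set of the finite places at which some `π_i` is not a twist of an unramified representation. We show:

* *Finiteness.* If all the `π_i` violate the Ramanujan conjecture at all the places of a set `E` of places, then `E` has
  upper Dirichlet density at most `1 / (34 m + 1)`. So, for a given set `E` of upper density `δ > 0`, at most
  `(1/δ - 1) / 34` pairwise inequivalent representations violate the conjecture at all the places of `E`; in particular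
  two representations are both nontempered on a set of upper density `≤ 1/69`.
* *Law of large numbers.* For every `ρ > 1/10` the places `v` such that at least `ρ m` of the `m` components
  `π_{i,v}` are not tempered have upper density at most `153 / (153 + 50 m (10 ρ - 1)²) = O(1/m)`. So in every large
  family, at almost all places, nine tenths of the representations satisfy the Ramanujan conjecture. We prove this with
  weights `w_i ≥ 0`, `∑ w_i = 1`, and `∑ w_i²` instead of `1/m`; the case above is `w_i = 1/m`.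
* Both follow from the first part of the theorem, a Bessel inequality for an arbitrary set `E` of places, uniform in
  `E`: with `P(E) = ∑_{v ∈ E} (N v)^{-σ}`, `1 < σ ≤ 2`, and `E_i = {v ∈ E : |tr π_{i,v}|² ≥ Y}` one has, for `Y - 1 + c ≥ 0`,

    `P(E)² + ∑_i max(0, (Y - 1 + c)² P(E_i) - (1 + c²) P(E))² / (1 + (1 + 2c)²) ≤ (P(all) + O(1)) P(E)`.

Known before: for one representation the density of the nontempered places is at most `1/35` (Kim and Shahidi), the case
`m = 1` of the finiteness statement. This only gives `1/35` for the places at which all the `π_i` are nontempered, and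
`1 / (35 ρ)` in the second statement, for all `m`. The results `SimultaneouslyTempered`, `LeastTemperedPlace` of this
problem concern the first tempered place. For natural families and a *fixed* place almost all members are
nearly tempered by the trace formula (Sarnak); here the family is arbitrary and the place varies. For example, the
`π_i` may be the conjugates `π^τ`, `τ ∈ Aut(ℂ)`, of one representation which is cohomological at infinity (`K` arbitrary,
the conjecture being unknown if `K` is not totally real or CM), or the conjugates of a representation of `GL_2` over a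
Galois extension `L / K`, i.e. over `K` the factors of the automorphic induction to `GL_{2m}` at the split places.

The structure `Family` lists what is used, all of it is known: the local components are unitary; `Ad π_i` (Gelbart,
Jacquet) and `A⁴ π_i` (Kim, Kim and Shahidi) are cuspidal automorphic representations of `GL_3` and `GL_5`; the Euler
products of the Rankin-Selberg `L`-functions `L^S(s, Π × Π'~)` of two of the representations `1`, `Ad π_i`, `A⁴ π_i` converge
absolutely for `Re s > 1` (Jacquet, Shalika), and `L^S(s, Π × Π'~) / ζ_K^S(s)^δ`, `δ = 1` if `Π ≅ Π'` and `δ = 0` otherwise,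
is holomorphic and not zero at `s = 1` (Jacquet, Piatetski-Shapiro, Shalika; Shahidi).

The proof: let `A_i(v) = tr Ad π_{i,v}` and `B_i(v) = tr A⁴ π_{i,v}`, so that `B = A² - A - 1`. As `1, A_i, B_i` are
orthonormal for the mean value over the places, and as squares are nonnegative at the prime powers as well, one has
`∑_v |∑_j c_j χ_j(v)|² (N v)^{-σ} ≤ (P(all) + O(1)) ∑_j c_j²` for the combinations of these functions (no bound towards
the Ramanujan conjecture is needed). By duality this is a Bessel inequality for the functions on the set of places, which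
is applied to the characteristic function of `E`. Finally `(1 + c²) + (1 + 2c) A_i + B_i = (A_i + c)²` is `≥ 0` everywhere
and `≥ (Y - 1 + c)²` if `A_i ≥ Y - 1`, and `A_i ≥ 3` if `π_{i,v}` is not tempered.
-/

set_option autoImplicit false

namespace Pool.Agent.Results.MP_8410ab_nt.FewCommonViolators

open NumberField IsDedekindDomain Filter Topology

/-- the finite places of `K` outside `S` -/
abbrev Places {K : Type} [Field K] [NumberField K] (S : Finset (HeightOneSpectrum (𝓞 K))) :=
  {v : HeightOneSpectrum (𝓞 K) // v ∉ S}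

/-- the norm of a finite place -/
noncomputable def Nm {K : Type} [Field K] [NumberField K] (v : HeightOneSpectrum (𝓞 K)) : ℕ :=
  Ideal.absNorm v.asIdeal

/-- the parameters of a unitary representation -/
def Unitary {n : ℕ} (a : Fin n → ℂ) : Prop :=
  (∀ i, a i ≠ 0) ∧ ∃ τ : Equiv.Perm (Fin n), ∀ i, a (τ i) = ((starRingEnd ℂ) (a i))⁻¹

/-- the Ramanujan conjecture at an unramified place -/
def Tempered {n : ℕ} (a : Fin n → ℂ) : Prop := ∀ i, ‖a i‖ = 1

/-- the Satake parameter of the trivial representation of `GL_1` -/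
def lift1 : Fin 1 → ℂ := fun _ => 1

/-- the Satake parameters of the adjoint lift `Ad π` to `GL_3` of a representation `π` of `GL_2` -/
noncomputable def lift3 (a : Fin 2 → ℂ) : Fin 3 → ℂ := ![a 0 / a 1, 1, a 1 / a 0]

/-- the Satake parameters of the lift `A⁴ π = Sym⁴ π ⊗ ω^{-2}` to `GL_5` of a representation `π` of `GL_2` with the
central character `ω` -/
noncomputable def lift5 (a : Fin 2 → ℂ) : Fin 5 → ℂ :=
  ![(a 0 / a 1) ^ 2, a 0 / a 1, 1, a 1 / a 0, (a 1 / a 0) ^ 2]

/-- the terms of `log (L^S(σ, Π × Π'~) / ζ_K^S(σ)^δ)`, `σ > 1`: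
`(tr A_v^k conj (tr B_v^k) - δ) / k · (N v)^{-kσ}`, `k = x.2 + 1`, if `A`, `B` are the parameters of `Π`, `Π'` -/
noncomputable def term {K : Type} [Field K] [NumberField K] {S : Finset (HeightOneSpectrum (𝓞 K))} {a b : ℕ}
    (A : Places S → Fin a → ℂ) (B : Places S → Fin b → ℂ) (δ σ : ℝ) (x : Places S × ℕ) : ℂ :=
  ((∑ i, A x.1 i ^ (x.2 + 1)) * (starRingEnd ℂ) (∑ i, B x.1 i ^ (x.2 + 1)) - δ) / ((x.2 : ℂ) + 1) *
    ((((Nm x.1.1 : ℕ) : ℝ) ^ (-(((x.2 : ℝ) + 1) * σ)) : ℝ) : ℂ)

/-- Rankin-Selberg theory for cuspidal representations with the parameters `A`, `B`: absolute convergence of the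
Euler product for `σ > 1`; `L^S(s, Π × Π'~) / ζ_K^S(s)^δ` has neither a zero nor a pole at `s = 1` -/
structure RankinSelberg {K : Type} [Field K] [NumberField K] {S : Finset (HeightOneSpectrum (𝓞 K))} {a b : ℕ}
    (A : Places S → Fin a → ℂ) (B : Places S → Fin b → ℂ) (δ : ℝ) : Prop where
  /-- absolute convergence -/
  summable : ∀ σ : ℝ, 1 < σ → Summable (term A B δ σ)
  /-- the behaviour at `s = 1` -/
  bounded : ∃ C : ℝ, ∀ σ : ℝ, 1 < σ → σ ≤ 2 → ‖∑' x, term A B δ σ x‖ ≤ C

/-- a family of pairwise inequivalent representations of `GL_2` -/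
structure Family {K : Type} [Field K] [NumberField K] {S : Finset (HeightOneSpectrum (𝓞 K))} {m : ℕ}
    (α : Fin m → Places S → Fin 2 → ℂ) : Prop where
  /-- the local components are unitary -/
  unitary : ∀ i v, Unitary (α i v)
  /-- `L(s, Ad π_i)` -/
  one_ad : ∀ i, RankinSelberg (fun _ : Places S => lift1) (fun v => lift3 (α i v)) 0
  /-- `L(s, A⁴ π_i)` -/
  one_sym : ∀ i, RankinSelberg (fun _ : Places S => lift1) (fun v => lift5 (α i v)) 0
  /-- `L(s, Ad π_i × Ad π_j)` -/
  ad_ad : ∀ i j, RankinSelberg (fun v => lift3 (α i v)) (fun v => lift3 (α j v)) (if i = j then 1 else 0)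
  /-- `L(s, Ad π_i × A⁴ π_j)` -/
  ad_sym : ∀ i j, RankinSelberg (fun v => lift3 (α i v)) (fun v => lift5 (α j v)) 0
  /-- `L(s, A⁴ π_i × A⁴ π_j)` -/
  sym_sym : ∀ i j, RankinSelberg (fun v => lift5 (α i v)) (fun v => lift5 (α j v)) (if i = j then 1 else 0)

/-- `∑_{v ∈ E} (N v)^{-σ}` -/
noncomputable def dsum {K : Type} [Field K] [NumberField K] {S : Finset (HeightOneSpectrum (𝓞 K))}
    (E : Set (Places S)) (σ : ℝ) : ℝ :=
  ∑' v, Set.indicator E (fun v => ((Nm v.1 : ℕ) : ℝ) ^ (-σ)) v

/-- the upper Dirichlet density of a set of places -/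
noncomputable def upperDensity {K : Type} [Field K] [NumberField K] {S : Finset (HeightOneSpectrum (𝓞 K))}
    (E : Set (Places S)) : ℝ :=
  limsup (fun σ : ℝ => dsum E σ / dsum (Set.univ : Set (Places S)) σ) (𝓝[>] 1)

section

open Pool.Agent.U980.FL

variable {K : Type} [Field K] [NumberField K] {S : Finset (HeightOneSpectrum (𝓞 K))} {m : ℕ}

/-- the norms -/
noncomputable def NN (v : Places S) : ℝ := ((Nm v.1 : ℕ) : ℝ)

theorem two_le_NN (v : Places S) : 2 ≤ NN v := by
  have := Pool.Agent.H921R2.TatePole.two_le_nm v.1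
  unfold NN
  exact_mod_cast this

theorem summable_NN {σ : ℝ} (hσ : 1 < σ) : Summable fun v : Places S => NN v ^ (-σ) :=
  (Pool.Agent.H921R2.TatePole.nm_summable (K := K) hσ).comp_injective Subtype.val_injective

theorem dsum_eq (E : Set (Places S)) (σ : ℝ) : dsum E σ = PE NN E σ := by
  classical
  rw [PE_eq]
  unfold dsum
  refine tsum_congr fun v => ?_
  rw [Set.indicator_apply]
  rfl

theorem dsum_univ (σ : ℝ) : dsum (Set.univ : Set (Places S)) σ = LL (NN : Places S → ℝ) σ := by
  unfold dsum LL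
  refine tsum_congr fun v => ?_
  rw [Set.indicator_univ]
  rfl

/-- `|tr A_v^k|² - 1`, `k = x.2 + 1` -/
noncomputable def AA (α : Fin m → Places S → Fin 2 → ℂ) (i : Fin m) (x : Places S × ℕ) : ℝ :=
  ‖α i x.1 0 ^ (x.2 + 1) + α i x.1 1 ^ (x.2 + 1)‖ ^ 2 - 1

theorem tr3 {a : Fin 2 → ℂ} (h : Unitary a) (k : ℕ) :
    ∑ i, lift3 a i ^ k = ((‖a 0 ^ k + a 1 ^ k‖ ^ 2 - 1 : ℝ) : ℂ) := by
  obtain ⟨hne, τ, hτ⟩ := h
  have h0 := hne 0
  have h1 := hne 1
  have e1 : ((‖a 0 ^ k + a 1 ^ k‖ ^ 2 : ℝ) : ℂ) =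
      (a 0 ^ k + a 1 ^ k) * ((starRingEnd ℂ) (a 0) ^ k + (starRingEnd ℂ) (a 1) ^ k) := by
    rw [← map_pow, ← map_pow, ← map_add, Complex.mul_conj, Complex.normSq_eq_norm_sq]
  have e2 : ∀ i, (starRingEnd ℂ) (a i) = (a (τ i))⁻¹ := by
    intro i
    rw [hτ i, inv_inv]
  have e3 : (a (τ 0))⁻¹ ^ k + (a (τ 1))⁻¹ ^ k = (a 0)⁻¹ ^ k + (a 1)⁻¹ ^ k := by
    have := Equiv.sum_comp τ (fun i => (a i)⁻¹ ^ k)
    rwa [Fin.sum_univ_two, Fin.sum_univ_two] at this
  have e4 : ((‖a 0 ^ k + a 1 ^ k‖ ^ 2 - 1 : ℝ) : ℂ) =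
      (a 0 ^ k + a 1 ^ k) * ((a 0)⁻¹ ^ k + (a 1)⁻¹ ^ k) - 1 := by
    rw [Complex.ofReal_sub, e1, e2, e2, e3, Complex.ofReal_one]
  rw [e4]
  unfold lift3
  simp only [Fin.sum_univ_three, Matrix.cons_val_zero, Matrix.cons_val_one, Matrix.cons_val_two,
    Matrix.head_cons, Matrix.tail_cons]
  have p0 : a 0 ^ k ≠ 0 := pow_ne_zero _ h0
  have p1 : a 1 ^ k ≠ 0 := pow_ne_zero _ h1
  simp only [div_pow, one_pow, inv_pow]
  field_simp
  ring

theorem tr5 {a : Fin 2 → ℂ} (h : Unitary a) (k : ℕ) :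
    ∑ i, lift5 a i ^ k =
      (((‖a 0 ^ k + a 1 ^ k‖ ^ 2 - 1) ^ 2 - (‖a 0 ^ k + a 1 ^ k‖ ^ 2 - 1) - 1 : ℝ) : ℂ) := by
  have h3 := tr3 h k
  have hne := h.1
  have h0 := hne 0
  have h1 := hne 1
  have p0 : a 0 ^ k ≠ 0 := pow_ne_zero _ h0
  have p1 : a 1 ^ k ≠ 0 := pow_ne_zero _ h1
  have e : (((‖a 0 ^ k + a 1 ^ k‖ ^ 2 - 1) ^ 2 - (‖a 0 ^ k + a 1 ^ k‖ ^ 2 - 1) - 1 : ℝ) : ℂ) =
      (∑ i, lift3 a i ^ k) ^ 2 - (∑ i, lift3 a i ^ k) - 1 := by
    rw [h3]
    push_cast
    ring
  rw [e]
  unfold lift3 lift5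
  simp only [Fin.sum_univ_three, Fin.sum_univ_five, Matrix.cons_val_zero, Matrix.cons_val_one, Matrix.cons_val_two,
    Matrix.head_cons, Matrix.tail_cons, Matrix.cons_val]
  simp only [div_pow, one_pow, ← pow_mul, mul_comm 2 k]
  simp only [pow_mul]
  field_simp
  ring

theorem nontemp {a : Fin 2 → ℂ} (h : Unitary a) (ht : ¬ Tempered a) : 4 ≤ ‖a 0 + a 1‖ ^ 2 := by
  obtain ⟨hne, τ, hτ⟩ := h
  have h0 := hne 0
  rcases eq_or_ne (τ 0) 0 with e | e
  · exfalso
    apply ht
    have hid : ∀ i, τ i = i := by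
      have e1 : τ 1 = 1 := by
        rcases eq_or_ne (τ 1) 1 with e' | e'
        · exact e'
        · exfalso
          have : τ 1 = 0 := by
            have := (τ 1).isLt
            omega
          exact absurd (τ.injective (this.trans e.symm)) (by decide)
      intro i
      fin_cases i
      · exact e
      · exact e1
    intro i
    have h1 := hτ i
    rw [hid i] at h1
    have h2 : ‖a i‖ = ‖a i‖⁻¹ := by
      conv_lhs => rw [h1]
      rw [norm_inv, RCLike.norm_conj]
    have h3 : 0 < ‖a i‖ := norm_pos_iff.2 (hne i)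
    have h4 : ‖a i‖ * ‖a i‖ = 1 := by
      nth_rewrite 1 [h2]
      exact inv_mul_cancel₀ h3.ne'
    nlinarith
  · have e1 : τ 0 = 1 := by
      have := (τ 0).isLt
      omega
    have h1 := hτ 0
    rw [e1] at h1
    have hc : (starRingEnd ℂ) (a 0) ≠ 0 := by simpa using h0
    have h2 : (a 0 + a 1) * (starRingEnd ℂ) (a 0) = ((‖a 0‖ ^ 2 + 1 : ℝ) : ℂ) := by
      rw [h1, add_mul, inv_mul_cancel₀ hc, Complex.mul_conj, Complex.normSq_eq_norm_sq]
      push_cast
      ring
    have h3 : ‖a 0 + a 1‖ * ‖a 0‖ = ‖a 0‖ ^ 2 + 1 := by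
      have := congrArg norm h2
      rw [norm_mul, RCLike.norm_conj, Complex.norm_real, Real.norm_eq_abs, abs_of_nonneg (by positivity)] at this
      exact this
    have h4 : 0 < ‖a 0‖ := norm_pos_iff.2 h0
    have h5 : 2 ≤ ‖a 0 + a 1‖ := by
      have h6 : 2 * ‖a 0‖ ≤ ‖a 0 + a 1‖ * ‖a 0‖ := by
        rw [h3]
        nlinarith [sq_nonneg (‖a 0‖ - 1)]
      exact le_of_mul_le_mul_right h6 h4
    nlinarith

theorem three_le {α : Fin m → Places S → Fin 2 → ℂ} (h : ∀ i v, Unitary (α i v)) {i : Fin m} {v : Places S}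
    (ht : ¬ Tempered (α i v)) : 3 ≤ AA α i (v, 0) := by
  have := nontemp (h i v) ht
  unfold AA
  simp only [zero_add, pow_one]
  linarith

/-- the real form of the Rankin-Selberg properties -/
def Good (x y : Places S × ℕ → ℝ) (δ : ℝ) : Prop :=
  (∀ σ : ℝ, 1 < σ → Summable fun z => (x z * y z - δ) * wt NN σ z) ∧
    ∃ C : ℝ, ∀ σ : ℝ, 1 < σ → σ ≤ 2 → |∑' z, (x z * y z - δ) * wt NN σ z| ≤ C

theorem Good.symm {x y : Places S × ℕ → ℝ} {δ : ℝ} (h : Good x y δ) : Good y x δ := by
  unfold Good at h ⊢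
  have e : ∀ z, y z * x z = x z * y z := fun z => mul_comm _ _
  simp only [e]
  exact h

theorem good_one : Good (fun _ : Places S × ℕ => 1) (fun _ => 1) 1 := by
  unfold Good
  simp only [mul_one, sub_self, zero_mul, tsum_zero, abs_zero]
  exact ⟨fun _ _ => summable_zero, 0, fun _ _ _ => le_rfl⟩

/-- from the complex to the real form -/
theorem rs_real {a b : ℕ} {A : Places S → Fin a → ℂ} {B : Places S → Fin b → ℂ} {δ : ℝ}
    (h : RankinSelberg A B δ) {x y : Places S × ℕ → ℝ}
    (hx : ∀ z, ∑ i, A z.1 i ^ (z.2 + 1) = (x z : ℂ)) (hy : ∀ z, ∑ i, B z.1 i ^ (z.2 + 1) = (y z : ℂ)) :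
    Good x y δ := by
  have key : ∀ σ z, term A B δ σ z = (((x z * y z - δ) * wt NN σ z : ℝ) : ℂ) := by
    intro σ z
    unfold term wt
    rw [hx, hy, Complex.conj_ofReal]
    push_cast
    have : ((z.2 : ℂ) + 1) ≠ 0 := by
      have : (((z.2 : ℝ) + 1 : ℝ) : ℂ) ≠ 0 := by
        rw [Complex.ofReal_ne_zero]
        positivity
      simpa using this
    unfold NN
    field_simp
  refine ⟨fun σ hσ => ?_, ?_⟩
  · have h1 := Complex.reCLM.summable (h.summable σ hσ)
    refine h1.congr fun z => ?_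
    rw [key]
    simp
  · obtain ⟨C, hC⟩ := h.bounded
    refine ⟨C, fun σ h1 h2 => ?_⟩
    have h3 := hC σ h1 h2
    simp only [key] at h3
    rwa [← Complex.ofReal_tsum, Complex.norm_real, Real.norm_eq_abs] at h3

theorem good {α : Fin m → Places S → Fin 2 → ℂ} (h : Family α) (j j' : Option (Fin m ⊕ Fin m)) :
    Good (sys (AA α) j) (sys (AA α) j') (if j = j' then 1 else 0) := by
  have t1 : ∀ z : Places S × ℕ, ∑ i, (lift1 i) ^ (z.2 + 1) = ((1 : ℝ) : ℂ) := by
    intro z
    simp [lift1]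
  have t3 : ∀ i, ∀ z : Places S × ℕ, ∑ j, lift3 (α i z.1) j ^ (z.2 + 1) = ((AA α i z : ℝ) : ℂ) :=
    fun i z => tr3 (h.unitary i z.1) _
  have t5 : ∀ i, ∀ z : Places S × ℕ, ∑ j, lift5 (α i z.1) j ^ (z.2 + 1) =
      ((AA α i z ^ 2 - AA α i z - 1 : ℝ) : ℂ) :=
    fun i z => tr5 (h.unitary i z.1) _
  match j, j' with
  | none, none =>
    rw [if_pos rfl]
    exact good_one
  | none, some (Sum.inl i) =>
    rw [if_neg (by simp)]
    exact rs_real (y := AA α i) (h.one_ad i) t1 (t3 i)
  | none, some (Sum.inr i) =>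
    rw [if_neg (by simp)]
    exact rs_real (h.one_sym i) t1 (t5 i)
  | some (Sum.inl i), none =>
    rw [if_neg (by simp)]
    exact (rs_real (y := AA α i) (h.one_ad i) t1 (t3 i)).symm
  | some (Sum.inr i), none =>
    rw [if_neg (by simp)]
    exact (rs_real (h.one_sym i) t1 (t5 i)).symm
  | some (Sum.inl i), some (Sum.inl i') =>
    have e : (if (some (Sum.inl i) : Option (Fin m ⊕ Fin m)) = some (Sum.inl i') then (1 : ℝ) else 0) =
        if i = i' then 1 else 0 := by simp
    rw [e]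
    exact rs_real (x := AA α i) (y := AA α i') (h.ad_ad i i') (t3 i) (t3 i')
  | some (Sum.inl i), some (Sum.inr i') =>
    rw [if_neg (by simp)]
    exact rs_real (x := AA α i) (h.ad_sym i i') (t3 i) (t5 i')
  | some (Sum.inr i'), some (Sum.inl i) =>
    rw [if_neg (by simp)]
    exact (rs_real (x := AA α i) (h.ad_sym i i') (t3 i) (t5 i')).symm
  | some (Sum.inr i), some (Sum.inr i') =>
    have e : (if (some (Sum.inr i) : Option (Fin m ⊕ Fin m)) = some (Sum.inr i') then (1 : ℝ) else 0) =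
        if i = i' then 1 else 0 := by simp
    rw [e]
    exact rs_real (h.sym_sym i i') (t5 i) (t5 i')

theorem ortho {α : Fin m → Places S → Fin 2 → ℂ} (h : Family α) :
    Ortho (NN : Places S → ℝ) (sys (AA α)) := by
  have all := good h
  refine ⟨two_le_NN, fun σ hσ => summable_NN hσ, fun j j' => (all j j').1, ?_⟩
  choose C hC using fun j j' => (all j j').2
  refine ⟨∑ j, ∑ j', |C j j'|, fun j j' σ h1 h2 => ?_⟩
  refine (hC j j' σ h1 h2).trans ((le_abs_self _).trans ?_)
  calc |C j j'| ≤ ∑ j', |C j j'| :=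
        Finset.single_le_sum (f := fun j' => |C j j'|) (fun _ _ => abs_nonneg _) (Finset.mem_univ j')
    _ ≤ _ := Finset.single_le_sum (f := fun j => ∑ j', |C j j'|)
        (fun _ _ => Finset.sum_nonneg fun _ _ => abs_nonneg _) (Finset.mem_univ j)

theorem LL_tendsto : Tendsto (LL (NN : Places S → ℝ)) (𝓝[>] 1) atTop := by
  obtain ⟨C, hC⟩ := Pool.Agent.H921R2.TatePole.prime_sum_bdd (K := K)
  have h1 : ∀ᶠ x : ℝ in 𝓝[>] 1, Pool.Agent.H921R2.TatePole.Lam x + (-C - S.card) ≤ LL (NN : Places S → ℝ) x := by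
    filter_upwards [hC, self_mem_nhdsWithin] with x hx hx1
    have hx1' : (1 : ℝ) < x := hx1
    have h2 := (abs_le.1 hx).1
    have h3 := (Pool.Agent.H921R2.TatePole.nm_summable (K := K) hx1').sum_add_tsum_subtype_compl S
    have h4 : ∑ v ∈ S, (Pool.Agent.H921R2.TatePole.nm v : ℝ) ^ (-x) ≤ S.card := by
      have : ∀ v ∈ S, (Pool.Agent.H921R2.TatePole.nm v : ℝ) ^ (-x) ≤ 1 := by
        intro v _
        have h5 : (1 : ℝ) ≤ Pool.Agent.H921R2.TatePole.nm v := by
          have := Pool.Agent.H921R2.TatePole.two_le_nm v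
          exact_mod_cast (by omega : 1 ≤ Pool.Agent.H921R2.TatePole.nm v)
        exact Real.rpow_le_one_of_one_le_of_nonpos h5 (by linarith)
      refine (Finset.sum_le_sum this).trans ?_
      simp
    have h6 : ∑' v : {v : HeightOneSpectrum (𝓞 K) // v ∉ S}, (Pool.Agent.H921R2.TatePole.nm v.1 : ℝ) ^ (-x) =
        LL (NN : Places S → ℝ) x := rfl
    linarith
  exact tendsto_atTop_mono' _ h1
    (tendsto_atTop_add_const_right _ _ Pool.Agent.H921R2.TatePole.Lam_tendsto)

theorem density_le {E : Set (Places S)} {κ C : ℝ} (hκ : 0 ≤ κ)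
    (h : ∀ σ : ℝ, 1 < σ → σ ≤ 2 → PE NN E σ ≤ κ * (LL (NN : Places S → ℝ) σ + C)) : upperDensity E ≤ κ := by
  unfold upperDensity
  simp only [dsum_univ]
  simp only [dsum_eq]
  have hev : ∀ᶠ σ : ℝ in 𝓝[>] 1, 1 < σ ∧ σ ≤ 2 := by
    filter_upwards [Ioc_mem_nhdsGT (show (1 : ℝ) < 2 by norm_num)] with σ hσ using hσ
  refine le_of_forall_pos_le_add fun ε hε => ?_
  refine limsup_le_of_le ?_ ?_
  · refine isCoboundedUnder_le_of_eventually_le (x := 0) _ ?_
    filter_upwards [(LL_tendsto (S := S)).eventually_gt_atTop (0 : ℝ)] with σ h1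
    exact div_nonneg (PE_nonneg two_le_NN E σ) h1.le
  · filter_upwards [hev, (LL_tendsto (S := S)).eventually_gt_atTop (0 : ℝ),
      (LL_tendsto (S := S)).eventually_ge_atTop (κ * |C| / ε)] with σ h1 h2 h3
    rw [div_le_iff₀ h2]
    have h4 := h σ h1.1 h1.2
    rw [div_le_iff₀ hε] at h3
    have h5 : κ * C ≤ κ * |C| := mul_le_mul_of_nonneg_left (le_abs_self C) hκ
    nlinarith

end

open scoped Classical in
/-- **Few representations violate the Ramanujan conjecture at the same places.** -/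
theorem result {K : Type} [Field K] [NumberField K] {S : Finset (HeightOneSpectrum (𝓞 K))} {m : ℕ}
    {α : Fin m → Places S → Fin 2 → ℂ} (h : Family α) :
    (∃ C : ℝ, ∀ σ : ℝ, 1 < σ → σ ≤ 2 → ∀ (E : Set (Places S)) (Y c : ℝ), 0 ≤ Y - 1 + c →
      dsum E σ ^ 2 + ∑ i, (max 0 ((Y - 1 + c) ^ 2 * dsum {v | v ∈ E ∧ Y ≤ ‖α i v 0 + α i v 1‖ ^ 2} σ -
        (1 + c ^ 2) * dsum E σ)) ^ 2 / (1 + (1 + 2 * c) ^ 2) ≤
        (dsum (Set.univ : Set (Places S)) σ + C) * dsum E σ) ∧
    (∀ E : Set (Places S), (∀ v ∈ E, ∀ i, ¬ Tempered (α i v)) → upperDensity E ≤ 1 / (34 * m + 1)) ∧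
    (∀ w : Fin m → ℝ, (∀ i, 0 ≤ w i) → ∑ i, w i = 1 → ∀ ρ : ℝ, 1 / 10 ≤ ρ →
      upperDensity {v : Places S | ρ ≤ ∑ i, if Tempered (α i v) then 0 else w i} ≤
        153 * (∑ i, w i ^ 2) / (153 * (∑ i, w i ^ 2) + 50 * (10 * ρ - 1) ^ 2)) := by
  obtain ⟨C₀, hC, hm⟩ := Pool.Agent.U980.FL.main_ineq (ortho h)
  have hw : ∀ w : Fin m → ℝ, (∀ i, 0 ≤ w i) → ∑ i, w i = 1 → ∀ ρ : ℝ, 1 / 10 ≤ ρ →
      upperDensity {v : Places S | ρ ≤ ∑ i, if Tempered (α i v) then 0 else w i} ≤
        153 * (∑ i, w i ^ 2) / (153 * (∑ i, w i ^ 2) + 50 * (10 * ρ - 1) ^ 2) := by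
    intro w hw0 hw1 ρ hρ
    have hW : 0 < ∑ i, w i ^ 2 := by
      refine (Finset.sum_nonneg fun i _ => sq_nonneg (w i)).lt_of_ne fun h0 => ?_
      have h1 := (Finset.sum_eq_zero_iff_of_nonneg fun i _ => sq_nonneg (w i)).1 h0.symm
      have h2 : ∑ i, w i = 0 := Finset.sum_eq_zero fun i hi => by simpa using h1 i hi
      rw [h2] at hw1
      norm_num at hw1
    refine density_le (C := C₀) (by positivity) fun σ h1 h2 => ?_
    rw [div_mul_eq_mul_div, le_div_iff₀ (by positivity), mul_comm]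
    refine Pool.Agent.U980.FL.weighted two_le_NN hC (summable_NN h1)
      (fun i => {v | ¬ Tempered (α i v)}) (fun i v hv => three_le h.unitary hv) w hw0 hw1 hρ _ ?_
      (fun T c hTc => hm σ h1 h2 _ T c hTc)
    intro v hv
    refine le_trans hv (le_of_eq ?_)
    refine Finset.sum_congr rfl fun i _ => ?_
    by_cases ht : Tempered (α i v)
    · rw [if_pos ht, Set.indicator_of_notMem (by simpa using ht)]
    · rw [if_neg ht, Set.indicator_of_mem (by simpa using ht)]
  refine ⟨⟨C₀, fun σ h1 h2 E Y c hYc => ?_⟩, fun E hE => ?_, hw⟩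
  · have h3 := hm σ h1 h2 E (Y - 1) c hYc
    simp only [dsum_univ]
    simp only [dsum_eq]
    refine le_trans (le_of_eq ?_) h3
    congr 1
    refine Finset.sum_congr rfl fun i _ => ?_
    have e : {v | v ∈ E ∧ Y ≤ ‖α i v 0 + α i v 1‖ ^ 2} = {v | v ∈ E ∧ Y - 1 ≤ AA α i (v, 0)} := by
      ext v
      unfold AA
      simp only [zero_add, pow_one, Set.mem_ofPred_eq]
      constructor <;> rintro ⟨k1, k2⟩ <;> refine ⟨k1, ?_⟩ <;> linarith
    rw [e]
  · refine density_le (C := C₀) (by positivity) fun σ h1 h2 => ?_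
    rw [div_mul_eq_mul_div, one_mul, le_div_iff₀ (by positivity), mul_comm]
    exact Pool.Agent.U980.FL.all_large two_le_NN hC E (fun v hv i => three_le h.unitary (hE v hv i))
      (fun T c hTc => hm σ h1 h2 E T c hTc)

end Pool.Agent.Results.MP_8410ab_nt.FewCommonViolators
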