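import Pool.Agent.U253.NFD.GLn

/-!
# `GL_n` over all number fields of a given degree: one small relation between the Satake parameters forces temperedness at all places

Let `K` be a number field, `π` an automorphic representation of `GL_n(𝔸_K)` with unitary local components, unramified above the
primes `p` outside a finite set `S`, `A_v` (`v ∣ p ∉ S`) its Satake parameters; `π_∞` is ARBITRARY. Let `ρ_j`, `j ∈ J`, be finitely many
representations of `GL_n(ℂ)`, not all weights of which are powers of the determinant, `W j` the multiset of weights of `ρ_j`.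

**Theorem.** Let `P = ∑_j c_j tr ρ_j`, `c_j` real, `c_j > 0` whenever a weight of `ρ_j` lies on the boundary of the convex hull of
all weights (e.g. `P = tr ρ - c`, or `P = tr ρ + ∑ c_j tr ρ_j` with smaller `ρ_j` and arbitrary real `c_j`). Let `d ≥ 1`. There is
`m = m(P, d) ≥ 1` such that the following holds for ALL number fields `K` of degree `d` and all `π` for which the
`L_S(s, π, ρ_j)` have meromorphic continuation and functional equation. If

  `P` is small on average: `|∑_{v ∣ p, deg v = 1} P(A_v)| ≤ g(p)`, `∑_{p < X} g(p) log p = o(√X)`, the eigenvalues of the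
  `ρ_j(A_v)` being bounded, or only bounded by `g(p)^{deg v}` above exceptional primes,

then `π_v` is tempered at EVERY place `v` of `K` which is archimedean or lies above a prime `p ∉ S`. More precisely all the
ratios of the Satake parameters of `π_v` are `m`-th roots of unity, for all these `v` and `π` with the same `m`, the
Langlands parameters of the archimedean components are unitary characters times the identity on `ℂˣ`, and `P(1) = 0`.

So a `π` which is non-tempered at one place (finite or infinite) stays away from every such hypersurface `P = 0`.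

Method: the product of the `L_S(s, π, ρ_j)^{c_j}` is written as an Euler product over the rational primes; the gap
theorem shows that it is trivial, so all the power sums vanish; comparing the extreme points of the convex hulls, weighted
by the residue degrees, over all finite (infinite) places at once gives a finite list of coincidence patterns.
-/

set_option autoImplicit false

open Filter Topology Asymptotics NumberField

namespace Pool.Agent.Results.MP_8410ab_nt.OneRelation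

/-- `∏_{m ∈ κ} Γ_ℝ(s + m)⁻¹`, `Γ_ℝ(s) = π^{-s/2} Γ(s/2)` -/
noncomputable def invGamma (κ : Multiset ℂ) (s : ℂ) : ℂ :=
  (κ.map fun m => (Complex.Gammaℝ (s + m))⁻¹).prod

/-- `∏_{(p, b) ∈ l} (1 - b p^{-s})` -/
noncomputable def finEuler (l : List (ℕ × ℂ)) (s : ℂ) : ℂ :=
  (l.map fun x => 1 - x.2 * (x.1 : ℂ) ^ (-s)).prod

/-- the places of `K` above the rational prime `p`: the prime ideals `v` of `𝓞 K` which contain `p` -/
noncomputable def places (K : Type) [Field K] [NumberField K] (p : ℕ) : Finset (Ideal (𝓞 K)) :=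
  IsDedekindDomain.primesOverFinset (Ideal.span {(p : ℤ)}) (𝓞 K)

/-- the residue degree of the place `v` above `p`: `N(v) = p^{degree p v}` -/
noncomputable def degree {K : Type} [Field K] [NumberField K] (p : ℕ) (v : Ideal (𝓞 K)) : ℕ :=
  (Ideal.span {(p : ℤ)}).inertiaDeg' v

/-- the value `x^μ = ∏_k x_k^{μ_k}` of the weight `μ` at the diagonal matrix `x` -/
noncomputable def eigenvalue {n : ℕ} (x : Fin n → ℂ) (μ : Fin n → ℤ) : ℂ := ∏ k, x k ^ μ k

/-- the weights of the dual representation -/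
def dual {n : ℕ} (W : Multiset (Fin n → ℤ)) : Multiset (Fin n → ℤ) := W.map fun μ => -μ

/-- the product `∏_{v ∣ p} det(1 - ρ(A_v) N(v)^{-s})⁻¹` of the Euler factors above `p`, `W` the weights of `ρ`, `A v` the
Satake parameters -/
noncomputable def eulerFactor (K : Type) [Field K] [NumberField K] {n : ℕ} (W : Multiset (Fin n → ℤ))
    (A : Ideal (𝓞 K) → Fin n → ℂ) (p : ℕ) (s : ℂ) : ℂ :=
  ∏ v ∈ places K p, (W.map fun μ => (1 - eigenvalue (A v) μ * (Ideal.absNorm v : ℂ) ^ (-s))⁻¹).prod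

/-- the value `P(x) = ∑_j c_j tr ρ_j(x)` -/
noncomputable def trace {J : Type} [Fintype J] {n : ℕ} (W : J → Multiset (Fin n → ℤ)) (c : J → ℝ)
    (x : Fin n → ℂ) : ℂ :=
  ∑ j, (c j : ℂ) * ((W j).map (eigenvalue x)).sum

/-- the Euler product `∏_{p ∉ S} F p s` extends to the meromorphic function `N/D` on `ℂ` -/
structure Continuation (S : Finset ℕ) (F : ℕ → ℂ → ℂ) (N D : ℂ → ℂ) : Prop where
  /-- `N` is entire -/
  entire_N : Differentiable ℂ N
  /-- `D` is entire -/
  entire_D : Differentiable ℂ D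
  /-- `N` and `D` are of order at most `3/2` -/
  order : ∃ C : ℝ, ∀ s, ‖N s‖ ≤ Real.exp (C * (1 + ‖s‖) ^ (3 / 2 : ℝ)) ∧
    ‖D s‖ ≤ Real.exp (C * (1 + ‖s‖) ^ (3 / 2 : ℝ))
  /-- `D` has no zeros in `Re s > 1` -/
  ne_zero : ∀ s : ℂ, 1 < s.re → D s ≠ 0
  /-- the partial Euler products converge to `N/D` in `Re s > 1` -/
  euler : ∀ s : ℂ, 1 < s.re → Tendsto (fun X : ℕ =>
    ∏ p ∈ (Finset.range X).filter (fun p => p.Prime ∧ p ∉ S), F p s) atTop (𝓝 (N s / D s))

/-- the functional equation between `N/D`, with the archimedean parameters `κ`, and the L-function `N'/D'` of the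
dual representation, with the archimedean parameters `κ'`: with
`Λ(s) = q^s · (invGamma κ s · finEuler m s)⁻¹ · finEuler l' s · N s / D s` and
`Λ'(s) = q^s · (invGamma κ' s · finEuler l s)⁻¹ · finEuler m' s · N' s / D' s` it says `Λ(s) = ε Λ'(1 - s)`; the finite products are
the Euler factors above `S` -/
def FunctionalEquation (S : Finset ℕ) (κ κ' : Multiset ℂ) (N D N' D' : ℂ → ℂ) : Prop :=
  ∃ (l l' m m' : List (ℕ × ℂ)) (q : ℝ) (ε : ℂ), 0 < q ∧ ε ≠ 0 ∧
    (∀ x ∈ l, x.1.Prime ∧ x.1 ∈ S) ∧ (∀ x ∈ l', x.1.Prime ∧ x.1 ∈ S) ∧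
    (∀ x ∈ m, x.1.Prime ∧ x.1 ∈ S) ∧ (∀ x ∈ m', x.1.Prime ∧ x.1 ∈ S) ∧
    ∀ s, (q : ℂ) ^ s * invGamma κ' (1 - s) * finEuler l (1 - s) * finEuler l' s * (N s * D' (1 - s)) =
      ε * (q : ℂ) ^ (1 - s) * invGamma κ s * finEuler m s * finEuler m' (1 - s) * (N' (1 - s) * D s)

/-- the exponent of `z` in the weight `μ` of the Langlands parameter of `π_∞` at the embedding `τ`: on `ℂˣ` the parameter
at `τ` is `z ↦ diag(z^{lam τ k} z̄^{lam τ̄ k'})` -/
noncomputable def pairing {K : Type} [Field K] {n : ℕ} (lam : (K →+* ℂ) → Fin n → ℂ)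
    (q : (K →+* ℂ) × (Fin n → ℤ)) : ℂ :=
  ∑ k, (q.2 k : ℂ) * lam q.1 k

/-- the pairs `(τ, μ)`, `τ` an embedding of `K` in `ℂ`, `μ` a weight of `ρ`, with multiplicity: the weights of the representation
of `ℂˣ` on the restriction of scalars to `ℚ` -/
noncomputable def pairs (K : Type) [Field K] [NumberField K] {n : ℕ} (W : Multiset (Fin n → ℤ)) :
    Multiset ((K →+* ℂ) × (Fin n → ℤ)) :=
  (Finset.univ : Finset (K →+* ℂ)).val ×ˢ W

/-- the gamma factors of the `ρ_j` are those of Langlands parameters with the exponents `lam τ`, `τ` the embeddings of `K`: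
complex conjugation acts on the pairs `(τ, μ)` (on `(τ, μ)`, `τ` complex, by `(τ̄, μ)`; on `(τ, μ)`, `τ` real, by an
involution of the weights). The pairs of `ρ_j` are those of a multiset `F` (weight vectors at real `τ` fixed up to sign) and
the orbits `q, θ q`, `q ∈ Q`; an element of `F` has the factor `Γ_ℝ(s + pairing + δ)`, `δ ∈ {0, 1}`, and an orbit, with
`pairing q - pairing (θ q) = k ≥ 0`, has the factor `Γ_ℂ(s + pairing q)`, i.e. the shifts `pairing q` and `pairing q + 1`; in the dual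
representation these are `Γ_ℝ(s - pairing + δ)` and `Γ_ℂ(s - pairing (θ q))` -/
def HarishChandra (K : Type) [Field K] [NumberField K] {J : Type} {n : ℕ}
    (W : J → Multiset (Fin n → ℤ)) (κ κ' : J → Multiset ℂ) (lam : (K →+* ℂ) → Fin n → ℂ) : Prop :=
  ∃ θ : (K →+* ℂ) × (Fin n → ℤ) → (K →+* ℂ) × (Fin n → ℤ), ∀ j,
    ∃ (F : Multiset (((K →+* ℂ) × (Fin n → ℤ)) × Bool)) (Q : Multiset ((K →+* ℂ) × (Fin n → ℤ))),
    pairs K (W j) = F.map Prod.fst + Q + Q.map θ ∧
    (∀ q ∈ Q, ∃ k : ℕ, pairing lam q = pairing lam (θ q) + k) ∧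
    κ j = F.map (fun q => pairing lam q.1 + if q.2 then 1 else 0) + Q.map (pairing lam) +
      Q.map (fun q => pairing lam q + 1) ∧
    κ' j = F.map (fun q => -pairing lam q.1 + if q.2 then 1 else 0) +
      Q.map (fun q => -pairing lam (θ q)) + Q.map (fun q => -pairing lam (θ q) + 1)

/-- the properties of `π` which are used; `W j` are the weights of `ρ_j`, `A v` the Satake parameters, `lam` the exponents of `π_∞` -/
structure Automorphic (K : Type) [Field K] [NumberField K] {J : Type} {n : ℕ}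
    (W : J → Multiset (Fin n → ℤ)) (S : Finset ℕ) (A : Ideal (𝓞 K) → Fin n → ℂ)
    (lam : (K →+* ℂ) → Fin n → ℂ) : Prop where
  /-- the Satake parameters are invertible -/
  satake : ∀ p : ℕ, p.Prime → p ∉ S → ∀ v ∈ places K p, ∀ k, A v k ≠ 0
  /-- `π_v` is unitary: the Satake parameters and their conjugate inverses agree as multisets -/
  unitary : ∀ p : ℕ, p.Prime → p ∉ S → ∀ v ∈ places K p,
    (Finset.univ : Finset (Fin n)).val.map (fun k => ((starRingEnd ℂ) (A v k))⁻¹) =
      (Finset.univ : Finset (Fin n)).val.map (A v)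
  /-- the central character of `π_∞` is unitary -/
  central : ∀ τ : K →+* ℂ, ∑ k, (lam τ k + lam (ComplexEmbedding.conjugate τ) k).re = 0
  /-- the L-functions of the `ρ_j` and their duals continue and have the functional equation, with the gamma factors
  given by Langlands parameters with the exponents `lam` -/
  nice : ∃ (κ κ' : J → Multiset ℂ) (N D N' D' : J → ℂ → ℂ), HarishChandra K W κ κ' lam ∧
    ∀ j, Continuation S (eulerFactor K (W j) A) (N j) (D j) ∧
      Continuation S (eulerFactor K (dual (W j)) A) (N' j) (D' j) ∧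
      FunctionalEquation S (κ j) (κ' j) (N j) (D j) (N' j) (D' j)

/-- the coefficient `c j` is positive whenever some weight of `ρ_j` is extreme in some direction `a` (in which not all
weights agree) -/
def PositiveOnFaces {J : Type} {n : ℕ} (W : J → Multiset (Fin n → ℤ)) (c : J → ℝ) : Prop :=
  ∀ a : Fin n → ℤ, (∃ i, ∃ j, ∃ μ ∈ W i, ∃ μ' ∈ W j, ∑ k, a k * μ k ≠ ∑ k, a k * μ' k) →
    ∀ j, ∀ μ ∈ W j, (∀ i, ∀ μ' ∈ W i, ∑ k, a k * μ' k ≤ ∑ k, a k * μ k) → 0 < c j

theorem eig_neg {n : ℕ} (x : Fin n → ℂ) (μ : Fin n → ℤ) : eigenvalue x (-μ) = (eigenvalue x μ)⁻¹ := by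
  unfold eigenvalue
  rw [← Finset.prod_inv_distrib]
  exact Finset.prod_congr rfl fun k _ => by rw [Pi.neg_apply, zpow_neg]

theorem coe_map {α β : Type*} (W : Multiset α) (f : α → β) :
    W.map f = ((W.toList.map f : List β) : Multiset β) := by
  rw [← Multiset.map_coe, Multiset.coe_toList]

/-- the symmetric form of the gamma factors -/
theorem gamma_sym {K : Type} [Field K] [NumberField K] {J : Type} {n : ℕ}
    {W : J → Multiset (Fin n → ℤ)} {κ κ' : J → Multiset ℂ} {lam : (K →+* ℂ) → Fin n → ℂ}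
    (h : HarishChandra K W κ κ' lam) (j : J) (z : ℂ) :
    ((κ j).map (Pool.Agent.U253.SPL.con z)).sum + ((κ' j).map (Pool.Agent.U253.SPL.con z)).sum =
      ∑ τ, ((W j).map fun μ => Pool.Agent.U253.SPL.Tc z (Pool.Agent.U253.SPL.dc (lam τ) μ)).sum := by
  obtain ⟨θ, hθ⟩ := h
  obtain ⟨F, Q, hW, -, h1, h2⟩ := hθ j
  have h0 : ∑ τ, ((W j).map fun μ => Pool.Agent.U253.SPL.Tc z (Pool.Agent.U253.SPL.dc (lam τ) μ)).sum =
      ((pairs K (W j)).map fun q => Pool.Agent.U253.SPL.Tc z (pairing lam q)).sum := by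
    have e : pairs K (W j) = (Finset.univ : Finset (K →+* ℂ)).val.bind fun τ => (W j).map (Prod.mk τ) := rfl
    rw [e, Multiset.map_bind, Multiset.sum_bind]
    show _ = ∑ τ, _
    refine Finset.sum_congr rfl fun τ _ => ?_
    rw [Multiset.map_map]
    rfl
  rw [h0, hW, h1, h2]
  simp only [Multiset.map_add, Multiset.sum_add, Multiset.map_map, Function.comp_def]
  have e1 : (F.map fun q => Pool.Agent.U253.SPL.con z (pairing lam q.1 + if q.2 then 1 else 0)).sum +
      (F.map fun q => Pool.Agent.U253.SPL.con z (-pairing lam q.1 + if q.2 then 1 else 0)).sum =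
      (F.map fun q => Pool.Agent.U253.SPL.Tc z (pairing lam q.1)).sum := by
    rw [← Multiset.sum_map_add]
    congr 1
    refine Multiset.map_congr rfl fun q _ => ?_
    have h3 := Pool.Agent.U253.SPL.con_real z (pairing lam q.1) (if q.2 then 1 else 0)
    have e : ((((if q.2 = true then (1 : ℤ) else 0) % 2 : ℤ)) : ℂ) = if q.2 = true then 1 else 0 := by
      split_ifs <;> norm_num
    rw [e] at h3
    exact h3
  have e2 : (Q.map fun q => Pool.Agent.U253.SPL.con z (pairing lam q)).sum +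
      (Q.map fun q => Pool.Agent.U253.SPL.con z (pairing lam q + 1)).sum =
      (Q.map fun q => Pool.Agent.U253.SPL.Tc z (pairing lam q)).sum := by
    rw [← Multiset.sum_map_add]
    congr 1
    exact Multiset.map_congr rfl fun q _ => Pool.Agent.U253.SPL.con_pair z (pairing lam q)
  have e3 : (Q.map fun q => Pool.Agent.U253.SPL.con z (-pairing lam (θ q))).sum +
      (Q.map fun q => Pool.Agent.U253.SPL.con z (-pairing lam (θ q) + 1)).sum =
      (Q.map fun q => Pool.Agent.U253.SPL.Tc z (pairing lam (θ q))).sum := by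
    rw [← Multiset.sum_map_add]
    congr 1
    refine Multiset.map_congr rfl fun q _ => ?_
    rw [Pool.Agent.U253.SPL.con_pair z (-pairing lam (θ q)), Pool.Agent.U253.SPL.Tc_neg]
  rw [← e1, ← e2, ← e3]
  ring

/-- **One small relation over a number field: `π` is tempered at all archimedean places and above all `p ∉ S`.** -/
theorem result {J : Type} [Fintype J] {n : ℕ} (d : ℕ) (W : J → Multiset (Fin n → ℤ)) (c : J → ℝ)
    (hW : ∀ j, ∀ σ : Equiv.Perm (Fin n), (W j).map (fun μ => μ ∘ σ) = W j)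
    (hns : ∃ j, ∃ μ ∈ W j, ∃ a b, μ a ≠ μ b) (hc : PositiveOnFaces W c) :
    ∃ m : ℕ, 0 < m ∧ ∀ (K : Type) [Field K] [NumberField K], Module.finrank ℚ K = d →
      ∀ (S : Finset ℕ) (A : Ideal (𝓞 K) → Fin n → ℂ) (lam : (K →+* ℂ) → Fin n → ℂ),
      Automorphic K W S A lam →
      ∀ (g : ℕ → ℝ) (B : ℝ), (∀ p, 0 ≤ g p) →
        (fun X : ℕ => ∑ p ∈ (Finset.range X).filter (fun p => p.Prime ∧ p ∉ S),
          g p * Real.log p) =o[atTop] (fun X : ℕ => √(X : ℝ)) →
        (∀ p : ℕ, p.Prime → p ∉ S →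
          ((∀ v ∈ places K p, ∀ j, ∀ μ ∈ W j, ‖eigenvalue (A v) μ‖ ≤ B) ∧
            ‖∑ v ∈ (places K p).filter (fun v => degree p v = 1), trace W c (A v)‖ ≤ g p) ∨
          ∀ v ∈ places K p, ∀ j, ∀ μ ∈ W j, ‖eigenvalue (A v) μ‖ ≤ g p ^ degree p v) →
        (∀ p : ℕ, p.Prime → p ∉ S → ∀ v ∈ places K p, ∀ i k, ‖A v i‖ = 1 ∧ A v i ^ m = A v k ^ m) ∧
        (∀ (τ : K →+* ℂ) (i k : Fin n), lam τ i = lam τ k ∧
          (lam τ i + lam (ComplexEmbedding.conjugate τ) i).re = 0) ∧
        ∑ j, c j * ((W j).card : ℝ) = 0 := by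
  set L : J → List (Fin n → ℤ) := fun j => (W j).toList with hLdef
  have hmem : ∀ j μ, μ ∈ L j ↔ μ ∈ W j := fun j μ => Multiset.mem_toList
  have hdom : Pool.Agent.U253.SPL.Dom L c := by
    intro a ⟨i, j, μ, hμ, μ', hμ', hne⟩ i' μ₁ hμ₁ hmax
    exact hc a ⟨i, j, μ, (hmem i μ).1 hμ, μ', (hmem j μ').1 hμ', hne⟩ i' μ₁ ((hmem i' μ₁).1 hμ₁)
      fun i₂ μ₂ hμ₂ => hmax i₂ μ₂ ((hmem i₂ μ₂).2 hμ₂)
  obtain ⟨m₁, hm₁, huni⟩ := Pool.Agent.U253.NFD.fin_main hdom d
  obtain ⟨j₀, μ₀, hμ₀, a, b, hab⟩ := hns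
  set m : ℕ := m₁ * (μ₀ a - μ₀ b).natAbs with hm
  have hm0 : 0 < m := Nat.mul_pos hm₁ (Int.natAbs_pos.2 (sub_ne_zero.2 hab))
  refine ⟨m, hm0, ?_⟩
  intro K _ _ hKd S A lam hpi g B hg hs h
  obtain ⟨htor, hun, hcen, κ, κ', N, D, N', D', hHC, hND⟩ := hpi
  have hdeg : ∀ p : ℕ, p.Prime → ∀ v ∈ places K p, Pool.Agent.U253.NFD.fdeg K v = degree p v :=
    fun p hp v hv => Pool.Agent.U253.NFD.fdeg_eq K hp hv
  have hf : ∀ p : ℕ, p.Prime → p ∉ S → ∀ v ∈ places K p, 0 < Pool.Agent.U253.NFD.fdeg K v := by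
    intro p hp _ v hv
    rw [hdeg p hp v hv]
    exact ((Pool.Agent.U253.NFD.places_facts K hp).1 v hv).1
  have hd : ∀ p : ℕ, p.Prime → p ∉ S → ∑ v ∈ places K p, Pool.Agent.U253.NFD.fdeg K v ≤ d := by
    intro p hp _
    rw [Finset.sum_congr rfl fun v hv => hdeg p hp v hv, ← hKd]
    exact (Pool.Agent.U253.NFD.places_facts K hp).2
  have hfac : ∀ (j : J) (p : ℕ), p.Prime → ∀ s : ℂ, eulerFactor K (W j) A p s =
      Pool.Agent.U253.NFD.EF (places K) (Pool.Agent.U253.NFD.fdeg K) A (L j) p s := by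
    intro j p hp s
    unfold eulerFactor Pool.Agent.U253.NFD.EF
    refine Finset.prod_congr rfl fun v hv => ?_
    rw [coe_map, Multiset.prod_coe]
    congr 1
    refine List.map_congr_left fun μ _ => ?_
    rw [← Pool.Agent.U253.NFD.norm_cpow K hp hv s]
    rfl
  have hfac' : ∀ (j : J) (p : ℕ), p.Prime → ∀ s : ℂ, eulerFactor K (dual (W j)) A p s =
      Pool.Agent.U253.NFD.EF' (places K) (Pool.Agent.U253.NFD.fdeg K) A (L j) p s := by
    intro j p hp s
    unfold eulerFactor dual Pool.Agent.U253.NFD.EF'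
    refine Finset.prod_congr rfl fun v hv => ?_
    rw [Multiset.map_map, coe_map, Multiset.prod_coe]
    congr 1
    refine List.map_congr_left fun μ _ => ?_
    rw [Function.comp_apply, eig_neg, ← Pool.Agent.U253.NFD.norm_cpow K hp hv s]
    rfl
  have hgi : ∀ (κ : Multiset ℂ) (s : ℂ), invGamma κ s = Pool.Agent.N210.FV.gi κ.toList s := by
    intro κ s
    unfold invGamma
    rw [coe_map, Multiset.prod_coe]
    rfl
  have hherm : ∀ p : ℕ, p.Prime → p ∉ S → ∀ v ∈ places K p, ∀ j,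
      ((L j).map fun μ => ((starRingEnd ℂ) (Pool.Agent.U253.SPL.mono (A v) μ))⁻¹).Perm
        ((L j).map (Pool.Agent.U253.SPL.mono (A v))) := by
    intro p hp hpS v hv j
    rw [← Multiset.coe_eq_coe]
    have h1 := Pool.Agent.U253.NFD.herm_sym (hun p hp hpS v hv) (hW j)
    rw [coe_map, coe_map (W j) (Pool.Agent.U253.SPL.mono (A v))] at h1
    exact h1
  have hH : ∀ j, Pool.Agent.U253.NFD.HK S
      (Pool.Agent.U253.NFD.EF (places K) (Pool.Agent.U253.NFD.fdeg K) A (L j)) (N j) (D j) := by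
    intro j
    obtain ⟨⟨a1, a2, a3, a4, a5⟩, -⟩ := hND j
    refine ⟨a1, a2, a3, a4, fun s hs => (a5 s hs).congr fun X => Finset.prod_congr rfl fun p hp => ?_⟩
    exact hfac j p (Finset.mem_filter.1 hp).2.1 s
  have hH' : ∀ j, Pool.Agent.U253.NFD.HK S
      (Pool.Agent.U253.NFD.EF' (places K) (Pool.Agent.U253.NFD.fdeg K) A (L j)) (N' j) (D' j) := by
    intro j
    obtain ⟨-, ⟨a1, a2, a3, a4, a5⟩, -⟩ := hND j
    refine ⟨a1, a2, a3, a4, fun s hs => (a5 s hs).congr fun X => Finset.prod_congr rfl fun p hp => ?_⟩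
    exact hfac' j p (Finset.mem_filter.1 hp).2.1 s
  have hFE : ∀ j, Pool.Agent.U253.EEA.FEq S (κ j).toList (κ' j).toList (N j) (D j) (N' j) (D' j) := by
    intro j
    obtain ⟨l, l', n, n', q, ε, hq, hε, b1, b2, b3, b4, hfe⟩ := (hND j).2.2
    refine ⟨l, l', n, n', q, ε, hq, hε, b1, b2, b3, b4, fun s => ?_⟩
    have h1 := hfe s
    rw [hgi, hgi] at h1
    exact h1
  have hsm : ∀ p : ℕ, p.Prime → p ∉ S →
      ((∀ v ∈ places K p, ∀ j, ∀ μ ∈ L j, ‖Pool.Agent.U253.SPL.mono (A v) μ‖ ≤ B) ∧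
        ‖∑ v ∈ (places K p).filter (fun v => Pool.Agent.U253.NFD.fdeg K v = 1),
          ∑ j, (c j : ℂ) * ((L j).map (Pool.Agent.U253.SPL.mono (A v))).sum‖ ≤ g p) ∨
      ∀ v ∈ places K p, ∀ j, ∀ μ ∈ L j,
        ‖Pool.Agent.U253.SPL.mono (A v) μ‖ ≤ g p ^ Pool.Agent.U253.NFD.fdeg K v := by
    intro p hp hpS
    rcases h p hp hpS with ⟨h1, h2⟩ | h1
    · left
      refine ⟨fun v hv j μ hμ => h1 v hv j μ ((hmem j μ).1 hμ), ?_⟩
      unfold trace at h2
      simp only [coe_map, Multiset.sum_coe] at h2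
      rw [Finset.filter_congr fun v hv => by rw [hdeg p hp v hv]]
      exact h2
    · right
      intro v hv j μ hμ
      rw [hdeg p hp v hv]
      exact h1 v hv j μ ((hmem j μ).1 hμ)
  obtain ⟨hz, harch⟩ := Pool.Agent.U253.NFD.nf_gap (W := L) (c := c) hf hd hherm hH hH' hFE hg hs hsm
  have hrel := Pool.Agent.U253.NFD.arch_rel3 (W := L) (c := c) (lam := lam)
    (m := fun j => (κ j).toList) (m' := fun j => (κ' j).toList) (fun j z => by
      have h2 := gamma_sym hHC j z
      simp only [coe_map, Multiset.sum_coe] at h2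
      exact h2) harch
  refine ⟨fun p hp hpS v hv => ?_, ?_, ?_⟩
  · have h1 := huni (Ideal (𝓞 K)) (places K p) (Pool.Agent.U253.NFD.fdeg K) A (hf p hp hpS) (hd p hp hpS)
      (htor p hp hpS) (hz p hp hpS) v hv
    have h2 : ∀ i k, A v i ^ m = A v k ^ m := fun i k =>
      Pool.Agent.U253.NFD.ratio_tor (htor p hp hpS v hv) (hW j₀) (fun μ hμ μ' hμ' =>
        h1 j₀ j₀ μ ((hmem j₀ μ).2 hμ) μ' ((hmem j₀ μ').2 hμ')) hμ₀ hab i k
    exact fun i k => ⟨Pool.Agent.U253.NFD.norm_one_of (htor p hp hpS v hv) (hun p hp hpS v hv) hm0 h2 i, h2 i k⟩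
  · have h1 : ∀ (τ : K →+* ℂ) (i k : Fin n), lam τ i = lam τ k := fun τ i k =>
      Pool.Agent.U253.NFD.exp_eq (hW j₀) (fun μ hμ μ' hμ' =>
        Pool.Agent.U253.NFD.arch_const hdom hrel τ ((hmem j₀ μ).2 hμ) ((hmem j₀ μ').2 hμ')) hμ₀ hab i k
    intro τ i k
    refine ⟨h1 τ i k, ?_⟩
    have h2 := hcen τ
    rw [Finset.sum_congr rfl fun k _ => by
      rw [h1 τ k i, h1 (ComplexEmbedding.conjugate τ) k i], Finset.sum_const, Finset.card_univ,
      Fintype.card_fin, nsmul_eq_mul] at h2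
    have h3 : (n : ℝ) ≠ 0 := by
      have := i.pos
      exact_mod_cast this.ne'
    exact (mul_eq_zero.1 h2).resolve_left h3
  · have h1 := Pool.Agent.U253.NFD.arch_total (W := L) (c := c) (E := K →+* ℂ) (lam := lam) hrel
    simpa [hLdef] using h1

end Pool.Agent.Results.MP_8410ab_nt.OneRelation
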